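import Mathlib
import Pool.Agent.Q16.Sharp3.Main

/-!
# A sharply 3-transitive group of homeomorphisms of a compact space without a group topology

Let `K = F_4((X))` with its usual topology, `σ` the coefficientwise Frobenius (an involution) and
`κ : Kˣ → ℤ/2` a discontinuous homomorphism of the form `χ (x σ(x))`.  The maps
`v ↦ A · σ^{κ (det A)} (v)`, `A ∈ GL₂(K)`, of the projective line over `K` form a sharply
3-transitive group of homeomorphisms.  There are `x_n → 1` with `κ (x_n) = 1`; the elements
`g_n = diag(x_n, 1) ∘ σ` converge to `1` for the orbit map at `([1,0],[0,1],[1,1])`, but not for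
the orbit map at `([1,0],[0,1],[c,1])` when `σ(c) ≠ c`.  So the orbit maps at two triples cannot
both be homeomorphisms, for any topology on the group.
-/

open Filter Topology

namespace Pool.Agent.Results.MP_3e0647_al.NoGroupTopology

/-- The space of triples of pairwise distinct points, a subspace of `M × M × M`. -/
abbrev Triples (M : Type*) : Type _ :=
  {t : M × M × M // t.1 ≠ t.2.1 ∧ t.1 ≠ t.2.2 ∧ t.2.1 ≠ t.2.2}

/-- The coordinatewise action on triples. -/
def act {G M : Type*} [Group G] [MulAction G M] (g : G) (t : Triples M) : Triples M :=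
  ⟨(g • t.1.1, g • t.1.2.1, g • t.1.2.2),
    fun h => t.2.1 (MulAction.injective g h), fun h => t.2.2.1 (MulAction.injective g h),
    fun h => t.2.2.2 (MulAction.injective g h)⟩

open Q16.Sharp3

theorem act_eq_iff {G M : Type*} [Group G] [MulAction G M] (g : G) (s t : Triples M) :
    act g s = t ↔ g • s.1.1 = t.1.1 ∧ g • s.1.2.1 = t.1.2.1 ∧ g • s.1.2.2 = t.1.2.2 := by
  rw [Subtype.ext_iff, Prod.ext_iff, Prod.ext_iff]
  rfl

/-- The triple `([1,0],[0,1],[c,1])`. -/
noncomputable def tri (c : K4) (hc : c ≠ 0) : Triples (PL K4) :=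
  ⟨(pt e₁, pt e₂, pt (e₃ c)), by
    refine ⟨?_, ?_, ?_⟩
    · rw [Ne, pt_eq_iff]
      simp [e₁, e₂]
    · rw [Ne, pt_eq_iff]
      simp [e₁, e₃]
    · rw [Ne, pt_eq_iff]
      simp [e₂, e₃, hc.symm]⟩

theorem sharp (s t : Triples (PL K4)) : ∃! g : Gr dat, act g s = t := by
  have hex : ∀ u : Triples (PL K4), ∃ g : Gr dat, act g (tri 1 one_ne_zero) = u := by
    intro u
    obtain ⟨g, h1, h2, h3⟩ := exists_base dat u.1.1 u.1.2.1 u.1.2.2 u.2.1 u.2.2.1 u.2.2.2
    exact ⟨g, (act_eq_iff _ _ _).2 ⟨h1, h2, h3⟩⟩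
  have hmul : ∀ (g h : Gr dat) (u : Triples (PL K4)), act (g * h) u = act g (act h u) := by
    intro g h u
    rw [act_eq_iff]
    exact ⟨mul_smul _ _ _, mul_smul _ _ _, mul_smul _ _ _⟩
  have hone : ∀ (u : Triples (PL K4)), act (1 : Gr dat) u = u := by
    intro u
    rw [act_eq_iff]
    exact ⟨one_smul _ _, one_smul _ _, one_smul _ _⟩
  obtain ⟨a, ha⟩ := hex s
  obtain ⟨b, hb⟩ := hex t
  refine ⟨b * a⁻¹, ?_, ?_⟩
  · simp only
    rw [hmul, ← ha, ← hmul a⁻¹ a, inv_mul_cancel, hone, hb]
  · intro g hg
    have h1 : act (b⁻¹ * g * a) (tri 1 one_ne_zero) = tri 1 one_ne_zero := by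
      rw [hmul, ha, hmul, hg, ← hb, ← hmul, inv_mul_cancel, hone]
    rw [act_eq_iff] at h1
    have h2 := eq_one_of_base dat _ h1.1 h1.2.1 h1.2.2
    have h3 : g = b * (b⁻¹ * g * a) * a⁻¹ := by group
    rw [h3, h2, mul_one]

/-- No topology on the group makes the two orbit maps homeomorphisms. -/
theorem no_topology (τ : TopologicalSpace (Gr dat))
    (h : ∀ t : Triples (PL K4), IsHomeomorph (fun g : Gr dat => act g t)) : False := by
  have hone : ∀ (u : Triples (PL K4)), act (1 : Gr dat) u = u := by
    intro u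
    rw [act_eq_iff]
    exact ⟨one_smul _ _, one_smul _ _, one_smul _ _⟩
  -- the elements `g_n` converge to `1`
  have hlim : Tendsto (fun n => gel dat (mat n)) atTop (𝓝 (1 : Gr dat)) := by
    rw [(h (tri 1 one_ne_zero)).isInducing.tendsto_nhds_iff, hone]
    rw [tendsto_subtype_rng]
    have e : ∀ n, ((fun g : Gr dat => act g (tri 1 one_ne_zero)) (gel dat (mat n))).1 =
        (pt e₁, pt e₂, pt (e₃ (xs n))) := by
      intro n
      change (gel dat (mat n) • pt (e₁ (K := K4)), gel dat (mat n) • pt (e₂ (K := K4)),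
        gel dat (mat n) • pt (e₃ (1 : K4))) = _
      rw [smul_e₁, smul_e₂, smul_e₃, map_one, mul_one]
    have e' : (fun n => (((fun g : Gr dat => act g (tri 1 one_ne_zero)) ∘
        fun n => gel dat (mat n)) n).1) = fun n => (pt e₁, pt e₂, pt (e₃ (xs n))) := funext e
    rw [e']
    apply Tendsto.prodMk_nhds tendsto_const_nhds
    apply Tendsto.prodMk_nhds tendsto_const_nhds
    exact (continuous_e₃.tendsto 1).comp tendsto_xs
  have h2 := ((h (tri cpt cpt_ne_zero)).continuous.tendsto 1).comp hlim
  rw [hone] at h2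
  have h3 : Tendsto (fun n => pt (e₃ (xs n * sig F4 cpt))) atTop (𝓝 (pt (e₃ cpt))) := by
    have hc : Continuous fun t : Triples (PL K4) => t.1.2.2 :=
      continuous_snd.comp (continuous_snd.comp continuous_subtype_val)
    have h4 := (hc.tendsto (tri cpt cpt_ne_zero)).comp h2
    have e : ((fun t : Triples (PL K4) => t.1.2.2) ∘
        ((fun g : Gr dat => act g (tri cpt cpt_ne_zero)) ∘ fun n => gel dat (mat n))) =
        fun n => pt (e₃ (xs n * sig F4 cpt)) := by
      funext n
      exact smul_e₃ n cpt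
    rw [e] at h4
    exact h4
  have h5 : Tendsto (fun n => pt (e₃ (xs n * sig F4 cpt))) atTop (𝓝 (pt (e₃ (sig F4 cpt)))) := by
    have h6 : Tendsto (fun n => xs n * sig F4 cpt) atTop (𝓝 (1 * sig F4 cpt)) :=
      tendsto_xs.mul_const _
    rw [one_mul] at h6
    exact (continuous_e₃.tendsto _).comp h6
  have h7 := tendsto_nhds_unique h3 h5
  rw [pt_eq_iff] at h7
  simp only [e₃, mul_one, one_mul] at h7
  exact sig_cpt h7.symm

/-- The negation of Q1: a compact Hausdorff space `M` and a group `G` acting sharply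
3-transitively on `M` by homeomorphisms such that no topology on `G` satisfies (i), (ii) and (iii)
simultaneously; in fact no topology on `G` satisfies (iii). -/
theorem result : ∃ (M : Type) (_ : TopologicalSpace M) (_ : CompactSpace M) (_ : T2Space M)
    (G : Type) (_ : Group G) (_ : MulAction G M),
    Nonempty (Triples M) ∧
    (∀ g : G, IsHomeomorph fun x : M => g • x) ∧
    (∀ s t : Triples M, ∃! g : G, act g s = t) ∧
    (∀ _ : TopologicalSpace G, ¬ (IsTopologicalGroup G ∧
      (Continuous fun p : G × Triples M => act p.1 p.2) ∧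
      ∀ t : Triples M, IsHomeomorph fun g : G => act g t)) ∧
    (∀ _ : TopologicalSpace G, ¬ ∀ t : Triples M, IsHomeomorph fun g : G => act g t) := by
  have hcomp : CompactSpace (PL K4) := compact_of _ (isCompact_ps (F := F4)) ps_val
  refine ⟨PL K4, inferInstance, hcomp, inferInstance, Gr dat, inferInstance, inferInstance,
    ⟨tri 1 one_ne_zero⟩, ?_, sharp, ?_, ?_⟩
  · intro g
    have hc := continuous_smul dat (continuous_sig (F := F4))
    exact (Homeomorph.mk (MulAction.toPerm g) (hc g) (by
      have := hc g⁻¹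
      exact this)).isHomeomorph
  · intro τ h
    exact no_topology τ h.2.2
  · intro τ h
    exact no_topology τ h

end Pool.Agent.Results.MP_3e0647_al.NoGroupTopology
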